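import Pool.Agent.N637.SLK.Ari
import Pool.Agent.N134.SLX.Inj

/-!
# SLK/INJ: the coordinates determine the vectors (helper498; adapted from Pool/Agent/N134/SLX/Inj.lean)
-/

set_option autoImplicit false

open scoped Classical

namespace Pool.Agent.N498.SLK

open Finset
open Pool.Agent.N916.GB (Po Vt)
open Pool.Agent.Y703.CQ (nr)
open Pool.Agent.N637.SLX (pdr dY)
open Pool.Agent.N637.SLK
open Pool.Agent.N134.SLX (z2_ext vt_prime dvd_iff int_prime dvd_prime dvd_pdr pdr_two pdr_ne)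

/-- SLK-INJ -/
theorem t_INJ : S_INJ := by
  intro t r s S m a c hTy _ _ x y x' y' hX hY
  have hpr : ∀ p : {x : ℕ // x ∈ Vt t S}, p.1.Prime := vt_prime hTy.po
  have hy : y = y' := by
    funext p
    apply z2_ext
    have h : ∀ q : {x : ℕ // x ∈ Vt t S}, ((p.1 : ℕ) : ℤ) ∣ ((q.1 : ℕ) : ℤ) ↔ q = p := by
      intro q
      rw [dvd_prime (hpr p) (hpr q), Subtype.ext_iff]
    have h1 := dvd_iff (fun q : {x : ℕ // x ∈ Vt t S} => ((q.1 : ℕ) : ℤ)) y (int_prime (hpr p)) p h
    have h2 := dvd_iff (fun q : {x : ℕ // x ∈ Vt t S} => ((q.1 : ℕ) : ℤ)) y' (int_prime (hpr p)) p h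
    rw [← h1, ← h2]
    unfold Pool.Agent.N637.SLX.dY at hY
    rw [hY]
  subst hy
  refine ⟨?_, rfl⟩
  unfold dXG at hX
  have hj : (∏ l ∈ lb a c, if ∑ q : {x : ℕ // x ∈ Vt t S}, nr l q.1 * y q = 1 then
      (if l % 4 = 1 then (l : ℤ) else -l) else 1) ≠ 0 := by
    refine Finset.prod_ne_zero_iff.2 fun l hl => ?_
    unfold lb at hl
    have h0 : (l : ℤ) ≠ 0 := by
      exact_mod_cast (Nat.prime_of_mem_primeFactors (mem_filter.1 hl).1).ne_zero
    split_ifs
    · exact h0
    · exact neg_ne_zero.2 h0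
    · exact one_ne_zero
  have hprod := mul_right_cancel₀ hj hX
  have hodd : ∀ p : {x : ℕ // x ∈ Vt t S}, p.1 ≠ 2 → x p = x' p := by
    intro p hp2
    apply z2_ext
    have h : ∀ q : {x : ℕ // x ∈ Vt t S}, ((p.1 : ℕ) : ℤ) ∣ pdr r s q.1 ↔ q = p := by
      intro q
      rw [dvd_pdr r s (hpr p) hp2 (hpr q), Subtype.ext_iff]
    have h1 := dvd_iff (fun q : {x : ℕ // x ∈ Vt t S} => pdr r s q.1) x (int_prime (hpr p)) p h
    have h2 := dvd_iff (fun q : {x : ℕ // x ∈ Vt t S} => pdr r s q.1) x' (int_prime (hpr p)) p h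
    rw [← h1, ← h2, hprod]
  funext p
  by_cases hp2 : p.1 = 2
  · rw [← Finset.mul_prod_erase univ _ (mem_univ p), ← Finset.mul_prod_erase univ
      (fun p : {x : ℕ // x ∈ Vt t S} => if x' p = 1 then pdr r s p.1 else 1) (mem_univ p)] at hprod
    have he : (∏ q ∈ univ.erase p, if x q = 1 then pdr r s q.1 else 1) =
        ∏ q ∈ univ.erase p, if x' q = 1 then pdr r s q.1 else 1 := by
      refine Finset.prod_congr rfl fun q hq => ?_
      rw [hodd q (fun h => (mem_erase.1 hq).1 (Subtype.ext (h.trans hp2.symm)))]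
    have hne : (∏ q ∈ univ.erase p, if x' q = 1 then pdr r s q.1 else 1) ≠ 0 := by
      refine Finset.prod_ne_zero_iff.2 fun q _ => ?_
      split_ifs
      · exact pdr_ne r s (hpr q)
      · exact one_ne_zero
    rw [he] at hprod
    have h3 := mul_right_cancel₀ hne hprod
    apply z2_ext
    have h4 : pdr r s p.1 ≠ 1 := by rw [hp2]; exact pdr_two r s
    constructor
    · intro h
      by_contra h'
      rw [if_pos h, if_neg h'] at h3
      exact h4 h3
    · intro h
      by_contra h'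
      rw [if_pos h, if_neg h'] at h3
      exact h4 h3.symm
  · exact hodd p hp2

end Pool.Agent.N498.SLK
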